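import Pool.Agent.Work.MP_db9399_ot.Base
import Pool.Agent.Work.MP_db9399_lh_helper22.NDEC

/-! THEOREM OUT, block NDEC: the near-decomposition with classes (FAC once for every pair of cells
and every type, a type being a host type or a class); modification of the block NDEC of
THEOREM LCH by helper22. -/

set_option autoImplicit false

namespace Pool.Agent.Work.MP_db9399_ot.helper67

open Finset Classical
open Pool.Agent.Work.MP_db9399_all (nb)
open Pool.Agent.Work.MP_db9399_dn (IsMat)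
open Pool.Agent.Work.MP_db9399_bg (den cl LabP Lbl c3f c3 rs rs_symm Ix mem_nb mem_cl
  den_nonneg den_mono c3f_inj mem_c3 two_mul_inj)
open Pool.Agent.Work.MP_db9399_lc (BL)
open Pool.Agent.Work.MP_db9399_lc.helper54 (In2 hdet In2_c3 In2_ne posn posn_lt posn_inj
  exists_In2 card_sdiff_UH)
open Pool.Agent.Work.MP_db9399_lh (Cr Lh ce su kp io sp pt cr cy rf rx rr tj ty inM fq f0 ft
  mem_cy mem_bb bb den_bb den_cy den_ty frac_ty f0_ge fq_pos f0_le fq_le card_zmod tj_unique
  ty_symm)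
open Pool.Agent.Work.MP_db9399_lh.helper22 (ty_unique ty_right Gt As mem_As nb_Gt nb_Gt2 den_n1
  den_n2 den_cell deg_le le_deg card_big)

universe u

/-- position of `s` among the indices with the same value -/
noncomputable def rk {w : ℕ} {T : Type} (τ : Fin w → T) (s : Fin w) : ℕ :=
  (univ.filter (fun s' => τ s' = τ s ∧ s' < s)).card

/-- the indices with value `t` -/
noncomputable def cset {w : ℕ} {T : Type} (τ : Fin w → T) (t : T) : Finset (Fin w) :=
  univ.filter (fun s' => τ s' = t)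

theorem mem_cset {w : ℕ} {T : Type} {τ : Fin w → T} {t : T} {s : Fin w} :
    s ∈ cset τ t ↔ τ s = t := by
  unfold cset
  rw [mem_filter]
  exact ⟨fun h => h.2, fun h => ⟨mem_univ _, h⟩⟩

/-- number of the indices with value `t` -/
noncomputable def cnt {w : ℕ} {T : Type} (τ : Fin w → T) (t : T) : ℕ := (cset τ t).card

theorem rk_lt {w : ℕ} {T : Type} (τ : Fin w → T) (s : Fin w) :
    rk τ s < cnt τ (τ s) := by
  apply card_lt_card
  rw [Finset.ssubset_iff_of_subset]
  · refine ⟨s, ?_, ?_⟩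
    · rw [mem_cset]
    · rw [mem_filter]
      exact fun h => lt_irrefl _ h.2.2
  · intro z hz
    rw [mem_filter] at hz
    rw [mem_cset]
    exact hz.2.1

theorem rk_lt_rk {w : ℕ} {T : Type} {τ : Fin w → T} {s s' : Fin w} (h : τ s = τ s')
    (hs : s < s') : rk τ s < rk τ s' := by
  apply card_lt_card
  rw [Finset.ssubset_iff_of_subset]
  · refine ⟨s, ?_, ?_⟩
    · rw [mem_filter]
      exact ⟨mem_univ _, h, hs⟩
    · rw [mem_filter]
      exact fun h => lt_irrefl _ h.2.2
  · intro z hz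
    rw [mem_filter] at hz ⊢
    exact ⟨hz.1, hz.2.1.trans h, hz.2.2.trans hs⟩

theorem rk_inj {w : ℕ} {T : Type} {τ : Fin w → T} {s s' : Fin w} (h : τ s = τ s')
    (hs : rk τ s = rk τ s') : s = s' := by
  rcases lt_trichotomy s s' with h1 | h1 | h1
  · exact absurd hs (rk_lt_rk h h1).ne
  · exact h1
  · exact absurd hs.symm (rk_lt_rk h.symm h1).ne

/-- types of the edges: host types and classes -/
abbrev Ty (n : ℕ) := Option (ZMod 3) ⊕ Fin n

/-- the part avoided by a type -/
def avo {n : ℕ} : Ty n → Option (ZMod 3)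
  | Sum.inl t => t
  | Sum.inr _ => none

/-- the type of the index `s` -/
def kd {w n : ℕ} (τ : Fin w → Option (ZMod 3)) (ι : Fin w → Option (Fin n)) (s : Fin w) : Ty n :=
  match ι s with
  | none => Sum.inl (τ s)
  | some i => Sum.inr i

theorem kd_none {w n : ℕ} {τ : Fin w → Option (ZMod 3)} {ι : Fin w → Option (Fin n)} {s : Fin w}
    (h : ι s = none) : kd τ ι s = Sum.inl (τ s) := by
  unfold kd
  rw [h]

theorem kd_some {w n : ℕ} {τ : Fin w → Option (ZMod 3)} {ι : Fin w → Option (Fin n)} {s : Fin w}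
    {i : Fin n} (h : ι s = some i) : kd τ ι s = Sum.inr i := by
  unfold kd
  rw [h]

theorem kd_inl {w n : ℕ} {τ : Fin w → Option (ZMod 3)} {ι : Fin w → Option (Fin n)} {s : Fin w}
    {t : Option (ZMod 3)} : kd τ ι s = Sum.inl t ↔ ι s = none ∧ τ s = t := by
  cases h : ι s with
  | none => rw [kd_none h]; simp
  | some i => rw [kd_some h]; simp

theorem kd_inr {w n : ℕ} {τ : Fin w → Option (ZMod 3)} {ι : Fin w → Option (Fin n)} {s : Fin w}
    {i : Fin n} : kd τ ι s = Sum.inr i ↔ ι s = some i := by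
  cases h : ι s with
  | none => rw [kd_none h]; simp
  | some j => rw [kd_some h]; simp

theorem avo_kd {w n : ℕ} {τ : Fin w → Option (ZMod 3)} {ι : Fin w → Option (Fin n)}
    (hτ : ∀ s, ι s ≠ none → τ s = none) (s : Fin w) : avo (kd τ ι s) = τ s := by
  cases h : ι s with
  | none => rw [kd_none h]; rfl
  | some i => rw [kd_some h, hτ s (by rw [h]; simp)]; rfl

/-- proportion of the edges of a type -/
noncomputable def fT {n : ℕ} (l S ν : ℕ) : Ty n → ℝ
  | Sum.inl t => ft l S ν t
  | Sum.inr _ => 1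

/-- cores joined to the core `c` by edges of a type -/
def FF {n : ℕ} {l S : ℕ} (ν : ℕ) (c : Cr l S) : Ty n → Cr l S → Prop
  | Sum.inl t => fun c' => ty ν t c c'
  | Sum.inr _ => fun _ => True

section
variable {V : Type u} [Fintype V] {l m r K K1 S : ℕ} {w n : ℕ}

/-- the graph containing the edges of a type -/
def GB (H : SimpleGraph V) (Gc : Fin n → SimpleGraph V) : Ty n → SimpleGraph V
  | Sum.inl _ => H
  | Sum.inr i => Gc i

/-- the edges of a type -/
def GT (ν : ℕ) (H : SimpleGraph V) (Gc : Fin n → SimpleGraph V) (lab : V → Lh l m r K K1 S) :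
    Ty n → SimpleGraph V
  | Sum.inl t => Gt ν t H lab
  | Sum.inr i => Gc i

theorem GT_adj {ν : ℕ} {H : SimpleGraph V} {Gc : Fin n → SimpleGraph V}
    {lab : V → Lh l m r K K1 S} {t : Ty n} {v v' : V} :
    (GT ν H Gc lab t).Adj v v' ↔ (GB H Gc t).Adj v v' ∧ FF ν (cr (lab v)) t (cr (lab v')) := by
  cases t with
  | inl t => rfl
  | inr i => exact ⟨fun h => ⟨h, trivial⟩, fun h => h.1⟩

theorem GT_unique (hl : 3 ≤ l) {ν : ℕ} {H : SimpleGraph V} {Gc : Fin n → SimpleGraph V}
    {lab : V → Lh l m r K K1 S} (hdH : ∀ i v v', (Gc i).Adj v v' → ¬ H.Adj v v')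
    (hdi : ∀ i j, i ≠ j → ∀ v v', (Gc i).Adj v v' → ¬ (Gc j).Adj v v') {t t' : Ty n} {v v' : V}
    (h : (GT ν H Gc lab t).Adj v v') (h' : (GT ν H Gc lab t').Adj v v') : t = t' := by
  cases t with
  | inl t =>
    cases t' with
    | inl t' => rw [ty_unique hl h.2 h'.2]
    | inr i => exact absurd h.1 (hdH i v v' h')
  | inr i =>
    cases t' with
    | inl t' => exact absurd h'.1 (hdH i v v' h)
    | inr j =>
      by_contra hne
      exact hdi i j (fun h0 => hne (by rw [h0])) v v' h h'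

/-- from the matchings of the pairs to the near-decomposition -/
theorem combine (hl : 3 ≤ l) {ν : ℕ} {H : SimpleGraph V} {Gc : Fin n → SimpleGraph V}
    {UH : Finset V} {lab : V → Lh l m r K K1 S} (τ : Fin w → Option (ZMod 3))
    (ι : Fin w → Option (Fin n)) (hτι : ∀ s, ι s ≠ none → τ s = none)
    (hdH : ∀ i v v', (Gc i).Adj v v' → ¬ H.Adj v v')
    (hdi : ∀ i j, i ≠ j → ∀ v v', (Gc i).Adj v v' → ¬ (Gc j).Adj v v')
    (MM : ZMod (2 * m + 1) → Fin m → Ty n → ℕ → SimpleGraph V)
    (h1 : ∀ a y t i, MM a y t i ≤ GT ν H Gc lab t ∧ IsMat (MM a y t i))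
    (h2 : ∀ a y t i v v', (MM a y t i).Adj v v' →
      (v ∈ As (avo t) UH lab (a + ((y : ℕ) + 1 : ℕ)) ∧
        v' ∈ As (avo t) UH lab (a - ((y : ℕ) + 1 : ℕ))) ∨
      (v ∈ As (avo t) UH lab (a - ((y : ℕ) + 1 : ℕ)) ∧
        v' ∈ As (avo t) UH lab (a + ((y : ℕ) + 1 : ℕ))))
    (h3 : ∀ a y t i j, i ≠ j → ∀ v v', (MM a y t i).Adj v v' → ¬ (MM a y t j).Adj v v')
    (h4 : ∀ a (y : Fin m) t i, i < (m - 1) * cnt (kd τ ι) t →
      ∀ v ∈ As (avo t) UH lab (a + ((y : ℕ) + 1 : ℕ)) ∪
        As (avo t) UH lab (a - ((y : ℕ) + 1 : ℕ)),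
      v ∉ univ.filter (fun v => kp (lab v) = a ∧ io (lab v) = 0) →
      (nb (MM a y t i) v).Nonempty) :
    ∃ Nd : Ix m w → SimpleGraph V, NDec ν H Gc UH lab τ ι Nd := by
  set κ : Fin w → Ty n := kd τ ι with hκ
  set W : Fin w → ℕ := fun s => cnt κ (κ s) with hW
  have hidx : ∀ (x : Ix m w) (y : Fin m), y ≠ x.2.1 →
      posn x.2.1 y * W x.2.2 + rk κ x.2.2 < (m - 1) * W x.2.2 := by
    intro x y hy
    have h5 := posn_lt hy
    have h6 : rk κ x.2.2 < W x.2.2 := rk_lt κ x.2.2
    have h7 : (posn x.2.1 y + 1) * W x.2.2 ≤ (m - 1) * W x.2.2 :=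
      Nat.mul_le_mul_right _ (by omega)
    rw [add_mul, one_mul] at h7
    omega
  set Nd : Ix m w → SimpleGraph V := fun x =>
    { Adj := fun v v' => ∃ y : Fin m, y ≠ x.2.1 ∧
        (MM x.1 y (κ x.2.2) (posn x.2.1 y * W x.2.2 + rk κ x.2.2)).Adj v v'
      symm := ⟨fun v v' ⟨y, hy, h⟩ => ⟨y, hy, h.symm⟩⟩
      loopless := ⟨fun v ⟨y, hy, h⟩ => (MM x.1 y _ _).loopless.irrefl v h⟩ } with hNd
  have hAdj : ∀ x v v', (Nd x).Adj v v' ↔ ∃ y : Fin m, y ≠ x.2.1 ∧
      (MM x.1 y (κ x.2.2) (posn x.2.1 y * W x.2.2 + rk κ x.2.2)).Adj v v' := by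
    intro x v v'
    rfl
  -- the cell of an end determines `y`
  have hIn : ∀ a y t i v v', (MM a y t i).Adj v v' → In2 a y (ce (lab v)) := by
    intro a y t i v v' h
    rcases h2 a y t i v v' h with ⟨h5, -⟩ | ⟨h5, -⟩
    · exact Or.inl (mem_As.1 h5).1
    · exact Or.inr (mem_As.1 h5).1
  have hsum : ∀ a y t i v v', (MM a y t i).Adj v v' → ce (lab v) + ce (lab v') = 2 * a := by
    intro a y t i v v' h
    rcases h2 a y t i v v' h with ⟨h5, h6⟩ | ⟨h5, h6⟩
    · rw [(mem_As.1 h5).1, (mem_As.1 h6).1]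
      ring
    · rw [(mem_As.1 h5).1, (mem_As.1 h6).1]
      ring
  refine ⟨Nd, ?_, ?_, ?_, ?_, ?_, ?_⟩
  · intro x v
    rw [Finset.card_le_one]
    intro z1 hz1 z2 hz2
    rw [mem_nb, hAdj] at hz1 hz2
    obtain ⟨y1, hy1, hz1⟩ := hz1
    obtain ⟨y2, hy2, hz2⟩ := hz2
    have h5 : y1 = y2 := hdet (hIn _ _ _ _ _ _ hz1) (hIn _ _ _ _ _ _ hz2)
    subst h5
    have h6 := (h1 x.1 y1 (κ x.2.2) (posn x.2.1 y1 * W x.2.2 + rk κ x.2.2)).2 v
    rw [Finset.card_le_one] at h6
    exact h6 z1 (mem_nb.2 hz1) z2 (mem_nb.2 hz2)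
  · intro x i hi v v' h
    obtain ⟨y, hy, h⟩ := (hAdj x v v').1 h
    have h5 := (h1 _ _ _ _).1 h
    rw [show κ x.2.2 = Sum.inr i from kd_some hi] at h5
    exact h5
  · intro x hi v v' h
    obtain ⟨y, hy, h⟩ := (hAdj x v v').1 h
    have h5 := (h1 _ _ _ _).1 h
    rw [show κ x.2.2 = Sum.inl (τ x.2.2) from kd_none hi] at h5
    exact ⟨h5.1, h5.2⟩
  · intro x v v' h
    obtain ⟨y, hy, h⟩ := (hAdj x v v').1 h
    have h5 := hIn _ _ _ _ _ _ h
    refine ⟨?_, ?_, hsum _ _ _ _ _ _ h⟩
    · rcases h2 _ _ _ _ v v' h with ⟨h6, -⟩ | ⟨h6, -⟩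
      · exact (mem_As.1 h6).2.1
      · exact (mem_As.1 h6).2.1
    · intro h6
      rcases mem_c3.1 h6 with h7 | h7
      · exact In2_ne h5 h7
      · exact hy (hdet h5 h7)
  · intro x x' hne v v' h h'
    obtain ⟨y, hy, h⟩ := (hAdj x v v').1 h
    obtain ⟨y', hy', h'⟩ := (hAdj x' v v').1 h'
    obtain ⟨a, hh, s⟩ := x
    obtain ⟨a', hh', s'⟩ := x'
    simp only at h h' hy hy'
    have h5 : a = a' := two_mul_inj ((hsum _ _ _ _ _ _ h).symm.trans (hsum _ _ _ _ _ _ h'))
    subst h5
    have h6 : y = y' := hdet (hIn _ _ _ _ _ _ h) (hIn _ _ _ _ _ _ h')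
    subst h6
    have ht : κ s = κ s' := GT_unique hl hdH hdi ((h1 _ _ _ _).1 h) ((h1 _ _ _ _).1 h')
    have hWs : W s' = W s := by
      rw [hW]
      simp only [ht]
    rw [← ht, hWs] at h'
    refine h3 a y _ _ _ ?_ v v' h h'
    intro h7
    have hs : rk κ s < W s := rk_lt κ s
    have hs' : rk κ s' < W s := by
      rw [← hWs]
      exact rk_lt κ s'
    have h8 : posn hh y = posn hh' y ∧ rk κ s = rk κ s' := by
      have hw : 0 < W s := by omega
      have e1 : (posn hh y * W s + rk κ s) / W s = posn hh y := by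
        rw [mul_comm, Nat.mul_add_div hw, Nat.div_eq_of_lt hs, add_zero]
      have e2 : (posn hh' y * W s + rk κ s') / W s = posn hh' y := by
        rw [mul_comm, Nat.mul_add_div hw, Nat.div_eq_of_lt hs', add_zero]
      have e3 : posn hh y = posn hh' y := by
        rw [← e1, ← e2, h7]
      refine ⟨e3, ?_⟩
      rw [e3] at h7
      omega
    have h9 : hh = hh' := posn_inj hy hy' h8.1
    have h10 : s = s' := rk_inj ht h8.2
    rw [h9, h10] at hne
    exact hne rfl
  · intro x v hv hc hτ hJ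
    have h5 : ce (lab v) ≠ x.1 := by
      intro h6
      exact hc (mem_c3.2 (Or.inl h6))
    obtain ⟨y, hy⟩ := exists_In2 h5
    have hyx : y ≠ x.2.1 := by
      rintro rfl
      exact hc (In2_c3 hy)
    have hav : avo (κ x.2.2) ≠ some (pt (lab v)) := by
      rw [hκ, avo_kd hτι]
      exact hτ
    have h6 := h4 x.1 y (κ x.2.2) (posn x.2.1 y * W x.2.2 + rk κ x.2.2) (hidx x y hyx) v (by
      rw [mem_union, mem_As, mem_As]
      rcases hy with hy | hy
      · exact Or.inl ⟨hy, hv, hav⟩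
      · exact Or.inr ⟨hy, hv, hav⟩) (by
      rw [mem_filter]
      exact fun h7 => hJ h7.2)
    obtain ⟨z, hz⟩ := h6
    rw [mem_nb] at hz
    exact ⟨z, mem_nb.2 ((hAdj x v z).2 ⟨y, hyx, hz⟩)⟩

/-- neighbours through edges of type `t` -/
theorem nb_GT {ν : ℕ} {t : Ty n} {H : SimpleGraph V} {Gc : Fin n → SimpleGraph V} {UH : Finset V}
    {lab : V → Lh l m r K K1 S} (v : V) (b : ZMod (2 * m + 1)) :
    nb (GT ν H Gc lab t) v ∩ As (avo t) UH lab b = (nb (GB H Gc t) v ∩ cl lab (cy {b}
      (univ.filter (fun c' => FF ν (cr (lab v)) t c')))) \ UH := by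
  cases t with
  | inl t => exact nb_Gt v b
  | inr i =>
    ext z
    rw [mem_inter, mem_nb, mem_As, mem_sdiff, mem_inter, mem_nb, mem_cl, mem_cy, mem_singleton,
      mem_filter]
    constructor
    · rintro ⟨h1, h3, h4, h5⟩
      exact ⟨⟨h1, h3, mem_univ _, trivial⟩, h4⟩
    · rintro ⟨⟨h1, h3, -, h5⟩, h4⟩
      exact ⟨h1, h3, h4, by simp [avo]⟩

theorem nb_GT2 {ν : ℕ} {t : Ty n} {H : SimpleGraph V} {Gc : Fin n → SimpleGraph V}
    {UH : Finset V} {lab : V → Lh l m r K K1 S} (v : V) (a b : ZMod (2 * m + 1)) :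
    (nb (GB H Gc t) v ∩ cl lab (bb {b} (univ.filter (fun c' => FF ν (cr (lab v)) t c')) univ
      {a} {0} univ)) \ UH ⊆ nb (GT ν H Gc lab t) v ∩ As (avo t) UH lab b ∩
        univ.filter (fun v => kp (lab v) = a ∧ io (lab v) = 0) := by
  cases t with
  | inl t => exact nb_Gt2 v a b
  | inr i =>
    intro z hz
    rw [mem_sdiff, mem_inter, mem_nb, mem_cl, mem_bb, mem_singleton, mem_filter,
      mem_singleton, mem_singleton] at hz
    obtain ⟨⟨h1, h2, ⟨-, h3⟩, -, h4, h5, -⟩, h6⟩ := hz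
    rw [mem_inter, mem_inter, mem_nb, mem_As, mem_filter]
    exact ⟨⟨h1, h2, h6, by simp [avo]⟩, mem_univ _, h4, h5⟩

theorem den_N1 (hl : 3 ≤ l) (ν : ℕ) (hν : ν ≤ S) (t : Ty n) (c : Cr l S)
    (hc : avo t ≠ some c.2.1) (b : ZMod (2 * m + 1)) :
    den (cy {b} (univ.filter (fun c' => FF ν c t c')) : Finset (Lh l m r K K1 S)) =
      fT l S ν t / (2 * m + 1) := by
  cases t with
  | inl t => exact den_n1 hl ν hν t c hc b
  | inr i =>
    have h1 : (univ.filter (fun c' : Cr l S => FF ν c (Sum.inr i : Ty n) c')) = univ :=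
      filter_true_of_mem (fun _ _ => trivial)
    rw [h1, den_cy, card_singleton, card_univ]
    simp only [fT, Fintype.card_prod, ZMod.card]
    have h1 : (0 : ℝ) < 2 * (m : ℝ) + 1 := by positivity
    have h2 : (0 : ℝ) < 2 * (l : ℝ) + 1 := by positivity
    have h3 : (0 : ℝ) < (S : ℝ) + 1 := by positivity
    push_cast
    field_simp

theorem den_N2 (hl : 3 ≤ l) (ν : ℕ) (hν : ν ≤ S) (t : Ty n) (c : Cr l S)
    (hc : avo t ≠ some c.2.1) (a b : ZMod (2 * m + 1)) :
    den (bb {b} (univ.filter (fun c' => FF ν c t c')) univ {a} {0} univ :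
      Finset (Lh l m r K K1 S)) = fT l S ν t / (2 * m + 1) / ((2 * m + 1) * (K + 1)) := by
  cases t with
  | inl t => exact den_n2 hl ν hν t c hc a b
  | inr i =>
    have h1 : (univ.filter (fun c' : Cr l S => FF ν c (Sum.inr i : Ty n) c')) = univ :=
      filter_true_of_mem (fun _ _ => trivial)
    rw [h1, den_bb]
    simp only [card_univ, Fintype.card_fin, card_singleton, fT, Fintype.card_prod, ZMod.card]
    push_cast
    have h1 : (0 : ℝ) < 2 * (m : ℝ) + 1 := by positivity
    have h2 : (0 : ℝ) < (r : ℝ) + 1 := by positivity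
    have h3 : (0 : ℝ) < (K : ℝ) + 1 := by positivity
    have h4 : (0 : ℝ) < (K1 : ℝ) + 1 := by positivity
    have h5 : (0 : ℝ) < 2 * (l : ℝ) + 1 := by positivity
    have h6 : (0 : ℝ) < (S : ℝ) + 1 := by positivity
    field_simp

theorem cnt_inl {τ : Fin w → Option (ZMod 3)} {ι : Fin w → Option (Fin n)}
    (t : Option (ZMod 3)) : cnt (kd τ ι) (Sum.inl t) =
      (univ.filter (fun s => ι s = none ∧ τ s = t)).card := by
  unfold cnt
  congr 1
  ext s
  rw [mem_cset, mem_filter, kd_inl]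
  exact ⟨fun h => ⟨mem_univ _, h⟩, fun h => h.2⟩

theorem cnt_inr {τ : Fin w → Option (ZMod 3)} {ι : Fin w → Option (Fin n)}
    (i : Fin n) : cnt (kd τ ι) (Sum.inr i) = (univ.filter (fun s => ι s = some i)).card := by
  unfold cnt
  congr 1
  ext s
  rw [mem_cset, mem_filter, kd_inr]
  exact ⟨fun h => ⟨mem_univ _, h⟩, fun h => h.2⟩

/-- upper bound for the degrees into a label set, when the degrees are at most `x` -/
theorem deg_le' {T : Type} [Fintype T] {G : SimpleGraph V} {d : ℕ} {σ c1 x : ℝ} {lab : V → T}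
    (hL : LabP G d σ c1 lab) (hd : ∀ v, ((nb G v).card : ℝ) ≤ x) (v : V) (P : Finset T) :
    ((nb G v ∩ cl lab P).card : ℝ) ≤ den P * x + σ * d := by
  have h1 := (abs_le.mp (hL.deg v P)).2
  have h2 : den P * ((nb G v).card : ℝ) ≤ den P * x :=
    mul_le_mul_of_nonneg_left (hd v) (den_nonneg P)
  linarith

end

theorem stmt_NDEC (hFAC : Pool.Agent.Work.MP_db9399_bg.Stmt_FAC.{u}) : Stmt_NDEC.{u} := by
  intro g gh n l m r K K1 S ν hg hgh hl hm hν
  have hm0 : (0 : ℝ) < 2 * (m : ℝ) + 1 := by positivity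
  have hl0 : (0 : ℝ) < 2 * (l : ℝ) + 1 := by positivity
  have hK0 : (0 : ℝ) < (K : ℝ) + 1 := by positivity
  have hK1 : (1 : ℝ) ≤ (K : ℝ) + 1 := by
    have : (0 : ℝ) ≤ K := Nat.cast_nonneg _
    linarith
  set N : ℝ := 2 * (m : ℝ) + 1 with hN
  have hN5 : 5 ≤ N := by
    have : (2 : ℝ) ≤ m := by exact_mod_cast hm
    rw [hN]
    linarith
  -- the proportions
  have hf0 : 0 < f0 l S ν := by
    have h1 := f0_ge l S ν
    have h2 : 3 / (2 * (l : ℝ) + 1) ≤ 3 / 7 := by
      have : (3 : ℝ) ≤ l := by exact_mod_cast hl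
      apply div_le_div_of_nonneg_left (by norm_num) (by norm_num)
      linarith
    linarith
  have hfq : 0 < fq l S ν := fq_pos l S ν hν
  set μ0 : ℝ := min (min (f0 l S ν) (fq l S ν)) 1 with hμ0
  have hμ : 0 < μ0 := lt_min (lt_min hf0 hfq) one_pos
  have hft0 : ∀ t : Ty n, μ0 ≤ fT l S ν t := by
    intro t
    cases t with
    | inl t =>
      simp only [fT, ft]
      split_ifs
      · exact (min_le_left _ _).trans (min_le_left _ _)
      · exact (min_le_left _ _).trans (min_le_right _ _)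
    | inr i => exact min_le_right _ _
  have hft1 : ∀ t : Ty n, fT l S ν t ≤ 1 := by
    intro t
    cases t with
    | inl t =>
      simp only [fT, ft]
      split_ifs
      · exact f0_le l S ν hν
      · have h1 := fq_le l S ν
        have h2 : 2 / (3 * (2 * (l : ℝ) + 1)) ≤ 1 := by
          rw [div_le_one (by positivity)]
          have : (0 : ℝ) ≤ l := Nat.cast_nonneg _
          linarith
        linarith
    | inr i => exact le_refl _
  set δ : ℝ := 1 / (40 * N ^ 2 * (K + 1)) with hδ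
  have hδ0 : 0 < δ := by positivity
  set σ : ℝ := δ * μ0 / (8 * N) with hσ
  have hσ0 : 0 < σ := by positivity
  have hδ1 : δ ≤ 1 / 1000 := by
    rw [hδ]
    apply one_div_le_one_div_of_le (by norm_num)
    have e1 : 5 * 5 ≤ N * N := mul_le_mul hN5 hN5 (by norm_num) (by linarith)
    have e2 : 40 * N ^ 2 * 1 ≤ 40 * N ^ 2 * ((K : ℝ) + 1) :=
      mul_le_mul_of_nonneg_left hK1 (by positivity)
    rw [pow_two] at e2 ⊢
    linarith
  refine ⟨σ, δ / 4, (n + 1) * 2 * (⌈2 / σ⌉₊ + 1), hσ0, by positivity, ?_⟩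
  intro V _ G H Q Gc d D w c1 UH lab τ ι hd hSit h2 hτι hwt hwc
  have hB := hSit.bh
  have hcls := hSit.cls
  -- `D` is large
  have hDbig : ⌈2 / σ⌉₊ + 1 ≤ D := by
    have h3 := hcls.d2D (by linarith)
    have h4 : (((n + 1) * 2 * (⌈2 / σ⌉₊ + 1) : ℕ) : ℝ) ≤ d := by exact_mod_cast hd
    push_cast at h4
    have h5 : (2 * ((n : ℝ) + 1)) * ((⌈2 / σ⌉₊ : ℝ) + 1) ≤ (2 * ((n : ℝ) + 1)) * D := by
      linarith
    have h6 : ((⌈2 / σ⌉₊ : ℝ) + 1) ≤ D := le_of_mul_le_mul_left h5 (by positivity)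
    exact_mod_cast h6
  have hd1 : 0 < D := by omega
  have hd1' : (0 : ℝ) < D := by exact_mod_cast hd1
  have h2σ : 2 ≤ σ * D := by
    have h3 : 2 / σ ≤ (D : ℝ) := (Nat.le_ceil _).trans (by
      have : ⌈2 / σ⌉₊ ≤ D := by omega
      exact_mod_cast this)
    rw [div_le_iff₀ hσ0] at h3
    linarith
  have hVc : 3 * (D : ℝ) ≤ Fintype.card V := by exact_mod_cast hB.big
  set q : Ty n → ℝ := fun t => fT l S ν t * D / N with hq
  have hq0 : ∀ t, 0 < q t := by
    intro t
    have h3 : 0 < fT l S ν t := lt_of_lt_of_le hμ (hft0 t)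
    simp only [hq]
    positivity
  have hσq : ∀ t, σ * D ≤ δ * q t / 8 := by
    intro t
    have h3 : σ * D = δ * (μ0 * D / N) / 8 := by
      rw [hσ]
      field_simp
    rw [h3]
    have h4 : μ0 * D / N ≤ q t := by
      simp only [hq]
      apply div_le_div_of_nonneg_right _ hm0.le
      exact mul_le_mul_of_nonneg_right (hft0 t) hd1'.le
    have h5 : δ * (μ0 * D / N) ≤ δ * q t := mul_le_mul_of_nonneg_left h4 hδ0.le
    linarith
  have hqd : ∀ t, q t ≤ D / N := by
    intro t
    simp only [hq]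
    apply div_le_div_of_nonneg_right _ hm0.le
    exact mul_le_of_le_one_left hd1'.le (hft1 t)
  set Dt : Ty n → ℕ := fun t => (m - 1) * cnt (kd τ ι) t with hDt
  have hm1 : ((m - 1 : ℕ) : ℝ) = (m : ℝ) - 1 := by
    rw [Nat.cast_sub (by omega)]
    simp
  have hD : ∀ t, ((Dt t : ℕ) : ℝ) ≤ (1 - 1 / N) * q t := by
    intro t
    simp only [hDt, hq]
    rw [Nat.cast_mul, hm1]
    cases t with
    | inl t =>
      rw [cnt_inl]
      exact hwt t
    | inr i =>
      rw [cnt_inr]
      simp only [fT, one_mul]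
      exact hwc i
  -- the graphs of the types
  have hLab : ∀ t : Ty n, LabP (GB H Gc t) D σ c1 lab := by
    intro t
    cases t with
    | inl t => exact hSit.labH
    | inr i => exact hSit.labc i
  have hup : ∀ (t : Ty n) (v : V), ((nb (GB H Gc t) v).card : ℝ) ≤ (1 + δ / 4) * D := by
    intro t v
    cases t with
    | inl t =>
      have h3 : ((nb H v).card : ℝ) ≤ D := by exact_mod_cast hB.deg v
      have h4 : 0 ≤ δ / 4 * D := by positivity
      have h5 : (1 + δ / 4) * (D : ℝ) = D + δ / 4 * D := by ring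
      rw [h5]
      exact h3.trans (by linarith)
    | inr i =>
      have h3 := (abs_le.mp (hcls.reg i v)).2
      have h5 : (1 + δ / 4) * (D : ℝ) = D + δ / 4 * D := by ring
      rw [h5]
      have h6 : ((nb (Gc i) v).card : ℝ) ≤ D + δ / 4 * D := by linarith
      exact h6
  have hlow : ∀ (t : Ty n) (v : V), (1 - δ / 4) * D ≤ ((nb (GB H Gc t) v).card : ℝ) := by
    intro t v
    cases t with
    | inl t => exact hB.low v
    | inr i =>
      have h3 := (abs_le.mp (hcls.reg i v)).1
      have h5 : (1 - δ / 4) * (D : ℝ) = D - δ / 4 * D := by ring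
      rw [h5]
      have h6 : D - δ / 4 * D ≤ ((nb (Gc i) v).card : ℝ) := by linarith
      exact h6
  have hle : ∀ t : Ty n, GB H Gc t ≤ G := by
    intro t
    cases t with
    | inl t => exact hcls.HG
    | inr i => exact hcls.GG i
  have h2' : ∀ (t : Ty n) (v : V), (nb (GB H Gc t) v ∩ UH).card ≤ 2 := by
    intro t v
    refine le_trans (card_le_card ?_) (h2 v)
    intro z hz
    rw [mem_inter, mem_nb] at hz ⊢
    exact ⟨hle t hz.1, hz.2⟩
  have h2H : ∀ v : V, (nb H v ∩ UH).card ≤ 2 := fun v => h2' (Sum.inl none) v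
  -- degrees
  have hdeg : ∀ t v b, avo t ≠ some (pt (lab v)) →
      |((nb (GT ν H Gc lab t) v ∩ As (avo t) UH lab b).card : ℝ) - q t| ≤ δ * q t := by
    intro t v b hv
    rw [nb_GT]
    obtain ⟨h3, h4⟩ := card_sdiff_UH (A := nb (GB H Gc t) v ∩ cl lab (cy {b}
      (univ.filter (fun c' => FF ν (cr (lab v)) t c')))) inter_subset_left (h2' t v)
    have h5 := deg_le' (hLab t) (hup t) v
      (cy {b} (univ.filter (fun c' => FF ν (cr (lab v)) t c')))
    have h6 := le_deg (hLab t) (hlow t) v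
      (cy {b} (univ.filter (fun c' => FF ν (cr (lab v)) t c')))
    rw [den_N1 hl ν hν t _ hv] at h5 h6
    have h7 : fT l S ν t / (2 * m + 1) * ((1 + δ / 4) * D) = q t + δ / 4 * q t := by
      simp only [hq]
      rw [hN]
      ring
    have h8 : fT l S ν t / (2 * m + 1) * ((1 - δ / 4) * D) = q t - δ / 4 * q t := by
      simp only [hq]
      rw [hN]
      ring
    rw [h7] at h5
    rw [h8] at h6
    rw [abs_le]
    have h9 : 0 < δ * q t := mul_pos hδ0 (hq0 t)
    have h10 := hσq t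
    constructor <;> linarith
  have hop : ∀ t v a b, avo t ≠ some (pt (lab v)) → 1 / (2 * N * (K + 1)) * q t ≤
      ((nb (GT ν H Gc lab t) v ∩ As (avo t) UH lab b ∩
      univ.filter (fun v => kp (lab v) = a ∧ io (lab v) = 0)).card : ℝ) := by
    intro t v a b hv
    have h3 := (Nat.cast_le (α := ℝ)).2 (card_le_card (nb_GT2 (ν := ν) (t := t) (H := H)
      (Gc := Gc) (UH := UH) (lab := lab) v a b))
    obtain ⟨h4, -⟩ := card_sdiff_UH (A := nb (GB H Gc t) v ∩ cl lab (bb {b}
      (univ.filter (fun c' => FF ν (cr (lab v)) t c')) univ {a} {0} univ)) inter_subset_left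
      (h2' t v)
    have h6 := le_deg (hLab t) (hlow t) v (bb {b}
      (univ.filter (fun c' => FF ν (cr (lab v)) t c')) univ {a} {0} univ)
    rw [den_N2 hl ν hν t _ hv] at h6
    have h8 : fT l S ν t / (2 * m + 1) / ((2 * m + 1) * (K + 1)) *
        ((1 - δ / 4) * D) = (1 - δ / 4) * (q t / (N * (K + 1))) := by
      simp only [hq]
      rw [hN]
      ring
    rw [h8] at h6
    have hqt := hq0 t
    have h9 : δ * q t ≤ 1 / 40 * (q t / (N * (K + 1))) := by
      have h10 : δ * q t = 1 / 40 * (q t / (N * (K + 1))) * (1 / N) := by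
        rw [hδ]
        field_simp
      rw [h10]
      have h11 : 1 / N ≤ 1 := by
        rw [div_le_one hm0]
        linarith
      have h12 : 0 ≤ 1 / 40 * (q t / (N * (K + 1))) := by positivity
      exact mul_le_of_le_one_right h12 h11
    have h10 : 1 / (2 * N * (K + 1)) * q t = 1 / 2 * (q t / (N * (K + 1))) := by
      field_simp
    have h11 : 0 ≤ q t / (N * (K + 1)) := by positivity
    have h12 : δ / 4 * (q t / (N * (K + 1))) ≤ 1 / 4000 * (q t / (N * (K + 1))) :=
      mul_le_mul_of_nonneg_right (by linarith) h11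
    rw [h10]
    have h13 : (1 - δ / 4) * (q t / (N * (K + 1))) =
        q t / (N * (K + 1)) - δ / 4 * (q t / (N * (K + 1))) := by ring
    rw [h13] at h6
    have h14 := hσq t
    linarith
  have hcard : ∀ (t : Ty n) b, 2 * Dt t ≤ (As (avo t) UH lab b).card := by
    intro t b
    have h3 : 3 * (2 / 3 * ((1 - 1 / N) * (D / N))) ≤ ((As (avo t) UH lab b).card : ℝ) := by
      apply card_big hB.deg hVc hd1
      · apply mul_nonneg (by norm_num)
        apply mul_nonneg
        · have h11 : 1 / N ≤ 1 := by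
            rw [div_le_one hm0]
            linarith
          linarith
        · positivity
      · intro v
        have h4 : nb H v ∩ As (avo t) UH lab b = (nb H v ∩ cl lab (cy {b}
            (univ.filter (fun c => avo t ≠ some c.2.1)))) \ UH := by
          ext z
          rw [mem_inter, mem_As, mem_sdiff, mem_inter, mem_cl, mem_cy, mem_singleton, mem_filter]
          constructor
          · rintro ⟨h5, h6, h7, h8⟩
            exact ⟨⟨h5, h6, mem_univ _, h8⟩, h7⟩
          · rintro ⟨⟨h5, h6, -, h8⟩, h7⟩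
            exact ⟨h5, h6, h7, h8⟩
        rw [h4]
        obtain ⟨h5, -⟩ := card_sdiff_UH (A := nb H v ∩ cl lab (cy {b}
            (univ.filter (fun c => avo t ≠ some c.2.1)))) inter_subset_left (h2H v)
        have h6 := le_deg hSit.labH hB.low v (cy {b} (univ.filter (fun c => avo t ≠ some c.2.1)))
        have h6' := den_cell (l := l) (m := m) (r := r) (K := K) (K1 := K1) (S := S) (avo t) b
        have h6'' : 2 / (3 * (2 * (m : ℝ) + 1)) * ((1 - δ / 4) * D) ≤
            den (cy {b} (univ.filter (fun c => avo t ≠ some c.2.1)) :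
              Finset (Lh l m r K K1 S)) * ((1 - δ / 4) * D) := by
          apply mul_le_mul_of_nonneg_right h6'
          apply mul_nonneg _ hd1'.le
          linarith
        have h7 : 2 / (3 * (2 * (m : ℝ) + 1)) * ((1 - δ / 4) * D) =
            2 / 3 * ((1 - δ / 4) * (D / N)) := by
          rw [hN]
          field_simp
        rw [h7] at h6''
        have h8 : σ * D ≤ δ / 8 * (D / N) := by
          have e1 := hσq t
          have e2 := mul_le_mul_of_nonneg_left (hqd t) hδ0.le
          linarith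
        have h9 : 40 * δ ≤ 1 / N := by
          rw [hδ]
          have e1 : N ≤ N * N := le_mul_of_one_le_right hm0.le (by linarith)
          have e2 : N ^ 2 * 1 ≤ N ^ 2 * ((K : ℝ) + 1) :=
            mul_le_mul_of_nonneg_left hK1 (by positivity)
          have e3 : 40 * (1 / (40 * N ^ 2 * ((K : ℝ) + 1))) = 1 / (N ^ 2 * (K + 1)) := by
            field_simp
          rw [e3]
          apply one_div_le_one_div_of_le hm0
          rw [pow_two] at e2 ⊢
          linarith
        have h10 : 0 ≤ (D : ℝ) / N := by positivity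
        have h11 : 40 * δ * (D / N) ≤ 1 / N * (D / N) := mul_le_mul_of_nonneg_right h9 h10
        have h12 : 0 ≤ δ * (D / N) := by positivity
        have h13 : (1 - 1 / N) * (D / N) = D / N - 1 / N * (D / N) := by ring
        have h14 : (1 - δ / 4) * (D / N) = D / N - δ * (D / N) / 4 := by ring
        rw [h13]
        rw [h14] at h6''
        linarith
    have h4 : 2 * ((Dt t : ℕ) : ℝ) ≤ ((As (avo t) UH lab b).card : ℝ) := by
      have h5 := hqd t
      have h6 : 0 ≤ 1 - 1 / N := by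
        have h11 : 1 / N ≤ 1 := by
          rw [div_le_one hm0]
          linarith
        linarith
      have h7 : (1 - 1 / N) * q t ≤ (1 - 1 / N) * (D / N) := mul_le_mul_of_nonneg_left h5 h6
      have h8 := hD t
      linarith
    exact_mod_cast h4
  have hex : ∀ (a : ZMod (2 * m + 1)) (y : Fin m) (t : Ty n),
      ∃ M : ℕ → SimpleGraph V,
      (∀ i, M i ≤ GT ν H Gc lab t ∧ IsMat (M i)) ∧
      (∀ i v v', (M i).Adj v v' →
        (v ∈ As (avo t) UH lab (a + ((y : ℕ) + 1 : ℕ)) ∧
          v' ∈ As (avo t) UH lab (a - ((y : ℕ) + 1 : ℕ))) ∨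
        (v ∈ As (avo t) UH lab (a - ((y : ℕ) + 1 : ℕ)) ∧
          v' ∈ As (avo t) UH lab (a + ((y : ℕ) + 1 : ℕ)))) ∧
      (∀ i j, i ≠ j → ∀ v v', (M i).Adj v v' → ¬ (M j).Adj v v') ∧
      ∀ i, i < Dt t →
        ∀ v ∈ As (avo t) UH lab (a + ((y : ℕ) + 1 : ℕ)) ∪
          As (avo t) UH lab (a - ((y : ℕ) + 1 : ℕ)),
        v ∉ univ.filter (fun v => kp (lab v) = a ∧ io (lab v) = 0) →
        (nb (M i) v).Nonempty := by
    intro a y t
    obtain ⟨M, hM1, hM2, hM3, hM4⟩ := hFAC (GT ν H Gc lab t) (q t) (1 / N)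
      (1 / (2 * N * (K + 1))) δ
      (Dt t) (As (avo t) UH lab (a + ((y : ℕ) + 1 : ℕ))) (As (avo t) UH lab (a - ((y : ℕ) + 1 : ℕ)))
      (univ.filter (fun v => kp (lab v) = a ∧ io (lab v) = 0)) (hq0 t) (by positivity)
      (by
        rw [div_le_one hm0]
        linarith) (by positivity)
      (by
        rw [div_le_one (by positivity)]
        have e2 : 2 * N * 1 ≤ 2 * N * ((K : ℝ) + 1) :=
          mul_le_mul_of_nonneg_left hK1 (by positivity)
        linarith) hδ0.le
      (by
        rw [hδ]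
        have h3 : 20 * (1 / (40 * N ^ 2 * ((K : ℝ) + 1))) =
            1 / N * (1 / (2 * N * (K + 1))) := by
          field_simp
          norm_num
        exact h3.le) (hD t)
      (by
        rw [Finset.disjoint_left]
        intro v hv hv'
        have h3 := (mem_As.1 hv).1
        have h4 := (mem_As.1 hv').1
        rw [h3] at h4
        have h5 := c3f_inj a y
        have h6 : c3f a y 1 = c3f a y 2 := h4
        exact absurd (h5 h6) (by decide)) (hcard t _) (hcard t _)
      (fun v hv => hdeg t v _ (mem_As.1 hv).2.2)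
      (fun v hv => hdeg t v _ (mem_As.1 hv).2.2) (fun v hv => hop t v _ _ (mem_As.1 hv).2.2)
      (fun v hv => hop t v _ _ (mem_As.1 hv).2.2)
    refine ⟨fun i => if h : i < Dt t then M ⟨i, h⟩ else ⊥, ?_, ?_, ?_, ?_⟩
    · intro i
      by_cases h : i < Dt t
      · simp only [h, dif_pos]
        exact hM1 _
      · simp only [h, dif_neg, not_false_eq_true]
        refine ⟨bot_le, ?_⟩
        intro v
        have : nb (⊥ : SimpleGraph V) v = ∅ := by
          ext z
          rw [mem_nb]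
          simp
        rw [this]
        simp
    · intro i v v' hv
      by_cases h : i < Dt t
      · simp only [h, dif_pos] at hv
        exact hM2 _ v v' hv
      · simp only [h, dif_neg, not_false_eq_true] at hv
        exact absurd hv (by simp)
    · intro i j hij v v' hv hv'
      by_cases h : i < Dt t
      · by_cases h' : j < Dt t
        · simp only [h, h', dif_pos] at hv hv'
          exact hM3 ⟨i, h⟩ ⟨j, h'⟩ (fun h3 => hij (Fin.mk.injEq .. ▸ h3)) v v' hv hv'
        · simp only [h', dif_neg, not_false_eq_true] at hv'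
          exact absurd hv' (by simp)
      · simp only [h, dif_neg, not_false_eq_true] at hv
        exact absurd hv (by simp)
    · intro i h v hv hv'
      simp only [h, dif_pos]
      exact hM4 ⟨i, h⟩ v hv hv'
  choose MM h3 using hex
  exact combine hl τ ι hτι hcls.disH hcls.dis MM (fun a y t i => (h3 a y t).1 i)
    (fun a y t i v v' h => (h3 a y t).2.1 i v v' h)
    (fun a y t i j hij v v' h => (h3 a y t).2.2.1 i j hij v v' h)
    (fun a y t i hi v hv hv' => (h3 a y t).2.2.2 i hi v hv hv')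

end Pool.Agent.Work.MP_db9399_ot.helper67
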