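import Pool.Agent.Work.MP_db9399_ot.Interface2
import Pool.Agent.Work.MP_db9399_ot_helper99.NRM

/-! THEOREM OUTC, block NRMC: near-regular graphs with a conflict graph (adapted from
helper99's block NRM; helper67). -/

set_option autoImplicit false

namespace Pool.Agent.Work.MP_db9399_ot.helper67

open Finset Classical
open Pool.Agent.Work.MP_db9399_all (nb)
open Pool.Agent.Work.MP_db9399_px (LWalk hit ee)
open Pool.Agent.Work.MP_db9399_dn (NB IsMat Tot)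
open Pool.Agent.Work.MP_db9399_bg (den cl LabP Good PN IsPat en enP REnv Spr Lbl bx c3f c3 HPre Ix
  mem_cl mem_nb)
open Pool.Agent.Work.MP_db9399_lc (BL)
open Pool.Agent.Work.MP_db9399_lc.helper99 (exists_colours)
open Pool.Agent.Work.MP_db9399_lh (Cr Lh ce su kp io sp pt cr inM rP rR qr pr qe fq f0 ft EndSX
  Vd UW VCol P0R PeR bb mem_bb den_bb card_core card_zmod)
open Pool.Agent.Work.MP_db9399_lh.helper99 (equi exists_types exists_tp)
open Pool.Agent.Work.MP_db9399_ot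
open Pool.Agent.Work.MP_db9399_ot.helper99 (oneRound_mono uPar_mono spl_le exists_iota card_class
  numbers)

universe u

theorem stmt_NRMC (hLABF : Stmt_LABF.{u}) (hESX : MP_db9399_lh.Stmt_ESX.{u})
    (hCORE : Stmt_CORE.{u}) (hNDEC : Stmt_NDEC.{u})
    (hVCOLC : Stmt_VCOLC.{u}) (hUPAR : Stmt_UPAR.{u}) (hLEFT : Stmt_LEFT.{u})
    (hP0ALL : Stmt_P0ALL.{u}) (hPEALL : Stmt_PEALL.{u}) (hASM : Stmt_ASM.{u}) :
    Stmt_NRMC.{u} := by
  intro g gh η n hg hg1 hgh hgh1 hη hη1 hn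
  have hn1 : (1 : ℝ) ≤ n := by exact_mod_cast hn
  -- constants
  obtain ⟨κ, hκ, hκ1, hV⟩ := hVCOLC g hg hg1
  obtain ⟨gd, l1, hgd, hgdg, hR⟩ := hCORE gh n hgh hgh1
  obtain ⟨l3, hl3⟩ := exists_nat_ge (6 / κ)
  obtain ⟨l, hl⟩ : ∃ l : ℕ, l = l1 + l3 + 20 := ⟨_, rfl⟩
  obtain ⟨δC, hδC, hR'⟩ := hR l (by omega)
  have hl20 : 20 ≤ l := by omega
  have hlr : 6 / κ ≤ 2 * (l : ℝ) + 1 := by
    have : (l3 : ℝ) ≤ l := by exact_mod_cast (by omega : l3 ≤ l)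
    have h0 : (0 : ℝ) ≤ l := Nat.cast_nonneg _
    linarith
  obtain ⟨cE, hcE, hcE1, hS⟩ := hESX gh l hgh (by omega)
  obtain ⟨K0, δe0, hδe0, hK0⟩ := hPEALL g gh gd δC cE n l hg hgh hgd (hgdg.trans hgh1) hδC hcE
    (by omega)
  obtain ⟨δe, hδe'⟩ : ∃ δe : ℝ, δe = min δe0 η := ⟨_, rfl⟩
  have hδe : 0 < δe := by rw [hδe']; exact lt_min hδe0 hη
  have hδe1 : δe ≤ δe0 := by rw [hδe']; exact min_le_left _ _
  have hδe2 : δe ≤ η := by rw [hδe']; exact min_le_right _ _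
  obtain ⟨K2, hK2⟩ := exists_nat_ge (8 / η)
  obtain ⟨K1, hK1⟩ : ∃ K1 : ℕ, K1 = K0 + 4 + K2 := ⟨_, rfl⟩
  have hK1η : 8 / η ≤ (K1 : ℝ) + 1 := by
    have : (K2 : ℝ) ≤ K1 := by exact_mod_cast (by omega : K2 ≤ K1)
    linarith
  obtain ⟨m0, hm0⟩ := hK0 K1 (by omega)
  obtain ⟨ν, hν⟩ : ∃ ν : ℕ, ν = 3 * (K1 + 1) ^ 2 := ⟨_, rfl⟩
  obtain ⟨S0, hS0⟩ := exists_nat_ge ((2 * ((K1 : ℝ) + 1) ^ 2 + 1) * (2 / δe))
  obtain ⟨S, hSS⟩ : ∃ S : ℕ, S = ν + S0 + 24 * (2 * (K1 + 1) ^ 2 + 1) := ⟨_, rfl⟩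
  have hS1 : 2 * ((K1 : ℝ) + 1) ^ 2 + 1 ≤ δe / 2 * (S + 1) := by
    have h1 : (S0 : ℝ) ≤ S := by exact_mod_cast (by omega : S0 ≤ S)
    have h2 : (2 * ((K1 : ℝ) + 1) ^ 2 + 1) * (2 / δe) ≤ S := hS0.trans h1
    have h3 : δe / 2 * ((2 * ((K1 : ℝ) + 1) ^ 2 + 1) * (2 / δe)) ≤ δe / 2 * S :=
      mul_le_mul_of_nonneg_left h2 (by positivity)
    have h4 : δe / 2 * ((2 * ((K1 : ℝ) + 1) ^ 2 + 1) * (2 / δe)) = 2 * ((K1 : ℝ) + 1) ^ 2 + 1 := by
      field_simp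
    linarith
  have hS2 : 24 * (2 * ((K1 : ℝ) + 1) ^ 2 + 1) ≤ S + 1 := by
    have h1 : 24 * (2 * (K1 + 1) ^ 2 + 1) ≤ S + 1 := by omega
    exact_mod_cast h1
  obtain ⟨δR, hδR, hR''⟩ := hR' S
  obtain ⟨δ, hδ⟩ : ∃ δ : ℝ, δ = min δR (1 / 10) := ⟨_, rfl⟩
  have hδ0 : 0 < δ := by
    rw [hδ]; exact lt_min hδR (by norm_num)
  have hδd1 : δ ≤ δR := by rw [hδ]; exact min_le_left _ _
  have hδt : δ ≤ 1 / 10 := by rw [hδ]; exact min_le_right _ _
  obtain ⟨q, hq⟩ := exists_nat_ge (10000 * ((n : ℝ) + 1) * (2 * (l : ℝ) + 1) / δ)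
  obtain ⟨r, hr⟩ : ∃ r : ℕ, r = q + 20 * (2 * l + 1) + n := ⟨_, rfl⟩
  obtain ⟨K, hK⟩ : ∃ K : ℕ, K = q := ⟨_, rfl⟩
  obtain ⟨m, hm⟩ : ∃ m : ℕ, m = m0 + q + 100 * (n + 1) * (K1 + 1) ^ 2 * ((2 * l + 1) * (S + 1)) +
    1000 * (n + 1) * (r + 1) + 4 := ⟨_, rfl⟩
  have hqd : 10000 * ((n : ℝ) + 1) * (2 * (l : ℝ) + 1) ≤ δ * q := by
    rw [div_le_iff₀ hδ0] at hq
    linarith
  have hqm : 10000 * ((n : ℝ) + 1) * (2 * (l : ℝ) + 1) ≤ δ * (2 * m + 1) := by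
    refine hqd.trans (mul_le_mul_of_nonneg_left ?_ hδ0.le)
    exact_mod_cast (by omega : q ≤ 2 * m + 1)
  have hqr : 10000 * ((n : ℝ) + 1) * (2 * (l : ℝ) + 1) ≤ δ * (r + 1) := by
    refine hqd.trans (mul_le_mul_of_nonneg_left ?_ hδ0.le)
    exact_mod_cast (by omega : q ≤ r + 1)
  have hqK : 10000 * ((n : ℝ) + 1) * (2 * (l : ℝ) + 1) ≤ δ * (K + 1) := by
    refine hqd.trans (mul_le_mul_of_nonneg_left ?_ hδ0.le)
    exact_mod_cast (by omega : q ≤ K + 1)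
  have hm1 : 1 ≤ m := by omega
  -- small constants
  obtain ⟨s1, c1, x1, n1, hs1, hc1, hx1, H1⟩ := hR'' m r K K1 hm1
  obtain ⟨s3, c3, x3, n3, hs3, hc3, hx3, H3⟩ := hS m r K K1 S hm1
  obtain ⟨s4, x4, n4, hs4, hx4, H4⟩ := hNDEC g gh n l m r K K1 S ν hg hgh (by omega) (by omega)
    (by omega)
  obtain ⟨s5, x5, n5, hs5, hx5, H5⟩ := hV l m r K K1 S
  obtain ⟨s6, x6, δ3, n6, hs6, hx6, hδ3, H6⟩ := hP0ALL g gh gd δ n l m r K K1 S ν hg hgh hgd hδ0
    hδt (by omega) (by omega) hqm hqr hqK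
  obtain ⟨s7, x7, δ4, n7, hs7, hx7, hδ4, H7⟩ := hm0 m r K S (by omega)
  obtain ⟨s8, x8, n8, hs8, hx8, H8⟩ := hUPAR n l m r K K1 S (min δ3 δ4) (lt_min hδ3 hδ4) hl20
    (by omega) (by omega) (by omega) (by omega) (by omega)
  obtain ⟨s9, x9, n9, hs9, hx9, H9⟩ := hLEFT n l m r K K1 S ν (by omega) (by omega) (by omega)
  obtain ⟨B, hB⟩ : ∃ B : ℝ, B = 100 * ((n : ℝ) + 1) * ((K1 : ℝ) + 1) ^ 2 *
    ((2 * l + 1) * (S + 1)) := ⟨_, rfl⟩
  have hB0 : 0 < B := by rw [hB]; positivity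
  obtain ⟨s, hs⟩ : ∃ s : ℝ, s = min (min (min s1 (η / 2)) (min s3 s4)) (min (min s5 s6)
    (min (min s7 s8) s9)) := ⟨_, rfl⟩
  obtain ⟨cc, hcc⟩ : ∃ cc : ℝ, cc = min c1 c3 := ⟨_, rfl⟩
  obtain ⟨x, hx⟩ : ∃ x : ℝ, x = min (min (min x1 (1 / B)) (min x3 x4)) (min (min x5 x6)
    (min (min x7 x8) (min x9 (1 / 2)))) := ⟨_, rfl⟩
  have hs0 : 0 < s := by
    rw [hs]
    exact lt_min (lt_min (lt_min hs1 (by positivity)) (lt_min hs3 hs4)) (lt_min (lt_min hs5 hs6)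
      (lt_min (lt_min hs7 hs8) hs9))
  have hcc0 : 0 < cc := by
    rw [hcc]
    exact lt_min hc1 hc3
  have hx0 : 0 < x := by
    rw [hx]
    exact lt_min (lt_min (lt_min hx1 (by positivity)) (lt_min hx3 hx4)) (lt_min (lt_min hx5 hx6)
      (lt_min (lt_min hx7 hx8) (lt_min hx9 (by norm_num))))
  have hsle : s ≤ s1 ∧ s ≤ η / 2 ∧ s ≤ s3 ∧ s ≤ s4 ∧ s ≤ s5 ∧ s ≤ s6 ∧ s ≤ s7 ∧ s ≤ s8 ∧
      s ≤ s9 := by
    rw [hs]
    simp only [min_le_iff, le_refl, true_or, or_true, and_true]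
  have hcle : cc ≤ c1 ∧ cc ≤ c3 := by
    rw [hcc]
    simp only [min_le_iff, le_refl, true_or, or_true, and_true]
  have hxle : x ≤ x1 ∧ x ≤ 1 / B ∧ x ≤ x3 ∧ x ≤ x4 ∧ x ≤ x5 ∧ x ≤ x6 ∧ x ≤ x7 ∧ x ≤ x8 ∧
      x ≤ x9 ∧ x ≤ 1 / 2 := by
    rw [hx]
    simp only [min_le_iff, le_refl, true_or, or_true, and_true]
  clear hs hcc hx
  obtain ⟨a1, a2, a3, a4, a5, a6, a7, a8, a9⟩ := hsle
  obtain ⟨b1, b3⟩ := hcle
  obtain ⟨y1, y2, y3, y4, y5, y6, y7, y8, y9, y10⟩ := hxle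
  have hxB : 100 * ((n : ℝ) + 1) * ((K1 : ℝ) + 1) ^ 2 * ((2 * l + 1) * (S + 1)) * x ≤ 1 := by
    rw [← hB]
    have := mul_le_mul_of_nonneg_left y2 hB0.le
    rw [mul_one_div, div_self hB0.ne'] at this
    exact this
  obtain ⟨n10, H10⟩ := numbers (κ := κ) (δe := δe) (f := f0 l S ν) (q := fq l S ν) (ε := x)
    (n := n) (l := l)
    (m := m) (r := r) (S := S) (ν := ν) (K1 := K1) hn hκ hδe hlr (by omega) hν rfl
    rfl (by omega) hS1 hS2 (by omega) hx0.le hxB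
  obtain ⟨n11, H11⟩ := hLABF (Lh l m r K K1 S) (n + 3) s cc (1 / (4 * ((n : ℝ) + 1))) hs0 hcc0
    (by positivity)
  obtain ⟨N0, hN0⟩ : ∃ N0 : ℕ, N0 = n1 + n3 + n4 + n5 + n6 + n7 + n8 + n9 + n10 + n11 := ⟨_, rfl⟩
  refine ⟨x, 2 * (n + 1) * N0, hx0, ?_⟩
  intro V _ G H Q Cf Gc d D k UH c0 EH tu hd hk hBG hBH hCls hQ hCf hH
  have hx1' : x ≤ 1 := y10.trans (by norm_num)
  have hDd := hCls.Dd hn hx1'
  have hDdr : (D : ℝ) ≤ d := by exact_mod_cast hDd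
  have hd2D := hCls.d2D y10
  have hN0D : N0 ≤ D := by
    have h1 : ((2 * (n + 1) * N0 : ℕ) : ℝ) ≤ d := by exact_mod_cast hd
    push_cast at h1
    have h2 : 2 * ((n : ℝ) + 1) * N0 ≤ 2 * ((n : ℝ) + 1) * D := h1.trans hd2D
    have h3 := le_of_mul_le_mul_left h2 (by positivity)
    exact_mod_cast h3
  have hGc : ∀ i v, (nb (Gc i) v).card ≤ 2 * d := by
    intro i v
    have h1 := (abs_le.mp (hCls.reg i v)).2
    have h2 : x * (D : ℝ) ≤ 1 * D := mul_le_mul_of_nonneg_right hx1' (Nat.cast_nonneg _)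
    have h3 : ((nb (Gc i) v).card : ℝ) ≤ 2 * d := by linarith only [h1, h2, hDdr]
    exact_mod_cast h3
  have hρD : 1 / (4 * ((n : ℝ) + 1)) * ((2 * d : ℕ) : ℝ) ≤ D := by
    push_cast
    rw [div_mul_eq_mul_div, div_le_iff₀ (by positivity)]
    linarith only [hd2D]
  have hρd : 1 / (4 * ((n : ℝ) + 1)) * ((2 * d : ℕ) : ℝ) ≤ d := hρD.trans hDdr
  obtain ⟨lab, hlab⟩ := H11 (V := V) (Fin.cons G (Fin.cons H (Fin.cons Q Gc))) (2 * d)
    (Fin.cons d (Fin.cons D (Fin.cons d (fun _ => D)))) (by omega)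
    (by
      intro i
      refine Fin.cases ?_ (Fin.cases ?_ (Fin.cases ?_ ?_)) i
      · intro v
        have := hBG.deg v
        exact (by omega : (nb G v).card ≤ 2 * d)
      · intro v
        have := hBH.deg v
        exact (by omega : (nb H v).card ≤ 2 * d)
      · intro v
        exact hQ v
      · intro j v
        exact hGc j v)
    (by
      intro i
      refine Fin.cases ?_ (Fin.cases ?_ (Fin.cases ?_ ?_)) i
      · exact ⟨hρd, (by omega : d ≤ 2 * d)⟩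
      · exact ⟨hρD, (by omega : D ≤ 2 * d)⟩
      · exact ⟨hρd, (by omega : d ≤ 2 * d)⟩
      · intro j
        exact ⟨hρD, (by omega : D ≤ 2 * d)⟩)
  have labG : LabP G d s cc lab := hlab 0
  have labH : LabP H D s cc lab := hlab (Fin.succ 0)
  have labQ : LabP Q d s cc lab := hlab (Fin.succ (Fin.succ 0))
  have labc : ∀ i, LabP (Gc i) D s cc lab := fun i =>
    hlab (Fin.succ (Fin.succ (Fin.succ i)))
  have hSit : Sit g gh x s cc G H Q Gc d D lab :=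
    ⟨hBG, hBH, hCls, labG, labH, labc, labQ⟩
  have hBLH : BL gh x H D := hSit.blH hn hx1' hgh.le
  obtain ⟨w0, wq, wc, W1, w_1, w_2, w_3, w_4, w_5, w_6, w_7, w_8, w_9, w_10, w_11, w_12, w_13,
    w_14, w_15, w_16⟩ := H10 d D (by omega) hCls.le_D hCls.D_le
  obtain ⟨w, hw⟩ : ∃ w : ℕ, w = (w0 + n * wc) + 3 * wq := ⟨_, rfl⟩
  -- colours
  have hcardI : Fintype.card (Ix m w) = (2 * m + 1) * (m * w) := by
    rw [Fintype.card_prod, Fintype.card_prod, ZMod.card, Fintype.card_fin, Fintype.card_fin]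
  obtain ⟨e, e1, he, he1, hee, -⟩ := exists_colours (k := k) (α := Ix m w) (β := Fin W1) ∅
    (by simp) (by rw [hcardI, Fintype.card_fin, hw, w_11]; exact hk)
  have hwr : (w : ℝ) = (w0 + n * wc) + 3 * wq := by rw [hw]; push_cast; ring
  have hNN0 : (0 : ℝ) ≤ (2 * (m : ℝ) + 1) * m := by positivity
  have hmw_le : (2 * (m : ℝ) + 1) * m * w ≤ d := by
    rw [hwr]
    linarith
  obtain ⟨τ, ρ, pal, hτ0, hτq, hτρ, hρ, hpal⟩ := exists_types m (w0 + n * wc) wq r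
  obtain ⟨ι, hι1, hι2, hι3⟩ := exists_iota τ hτ0
  have hι4 : ∀ j, (univ.filter (fun s => ι s = none ∧ τ s = some j)).card = wq := by
    intro j
    refine Eq.trans ?_ (hτq j)
    congr 1
    ext s
    simp only [mem_filter, mem_univ, true_and]
    constructor
    · exact fun h => h.2
    · intro h
      refine ⟨?_, h⟩
      by_contra h2
      rw [hι1 s h2] at h
      exact absurd h (by simp)
  subst hw
  obtain ⟨sy, hsy⟩ := equi W1 (Fin (K1 + 1) × Fin (K1 + 1))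
  have htp := fun u : V => exists_tp e he τ (c0 u) (tu u)
  choose tp htp using htp
  have hρ' : ∀ i, (3 * (2 * (m : ℝ) + 1)) * (m * (univ.filter (fun s => ρ s = i)).card) ≤ d := by
    intro i
    have h1 := mul_le_mul_of_nonneg_left (hρ i) hNN0
    push_cast at h1
    linarith
  have hτt : ∀ t, ((m : ℝ) - 1) * (univ.filter (fun s => ι s = none ∧ τ s = t)).card ≤
        (1 - 1 / (2 * m + 1)) * (ft l S ν t * D / (2 * m + 1)) := by
    intro t
    unfold ft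
    cases t with
    | none =>
      rw [if_pos rfl, hι2]
      exact w_1
    | some j =>
      rw [if_neg (by simp), hι4]
      exact w_2
  have hτt' : ∀ t, (1 - 2 / (2 * m + 1)) * (ft l S ν t * D / (2 * m + 1)) ≤
        ((m : ℝ) - 1) * (univ.filter (fun s => ι s = none ∧ τ s = t)).card := by
    intro t
    unfold ft
    cases t with
    | none =>
      rw [if_pos rfl, hι2]
      exact w_4
    | some j =>
      rw [if_neg (by simp), hι4]
      exact w_5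
  have hsy' : ∀ z, (D : ℝ) / ((2 * l + 1) * (S + 1)) + 8 * (d : ℝ) / (2 * m + 1) ≤
        (univ.filter (fun y => sy y = z)).card := by
    intro z
    have h1 := (hsy z).1
    rw [Fintype.card_prod, Fintype.card_fin] at h1
    push_cast at h1
    have h2 := w_14.trans h1
    have h3 : 0 < ((K1 : ℝ) + 1) ^ 2 := by positivity
    have h4 : ((K1 : ℝ) + 1) ^ 2 * ((D : ℝ) / ((2 * l + 1) * (S + 1)) + 8 * (d : ℝ) / (2 * m + 1) + 1)
      ≤ ((K1 : ℝ) + 1) ^ 2 * (((univ.filter (fun y => sy y = z)).card : ℝ) + 1) := by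
      rw [sq] at h2 ⊢
      exact h2
    have h5 := le_of_mul_le_mul_left h4 h3
    linarith
  -- the blocks
  obtain ⟨L1, L2⟩ := H1 H d D lab (by omega) hd2D hDd (hBH.mono y1) (labH.mono a1 b1)
  have L3 := H3 H D lab (by omega) (MP_db9399_ot.BL.mono' hBLH y3) (labH.mono a3 b3)
  have L1' : OneRound gd δ H D d lab := oneRound_mono L1 hδd1
  obtain ⟨Nd, L4⟩ := H4 G H Q Gc d D ((w0 + n * wc) + 3 * wq) cc UH lab τ ι (by omega)
    (hSit.mono y4 a4 le_rfl) hH.two hι1 hτt (fun i => by rw [hι3]; exact w_3)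
  obtain ⟨c, L5, L5c⟩ := H5 G Cf d k ((w0 + n * wc) + 3 * wq) cc UH c0 EH tu lab e τ pal
    (by omega) (MP_db9399_ot.BL.mono' hBG y5) (labG.mono a5 le_rfl)
    (fun v => (hCf v).trans (mul_le_mul_of_nonneg_right y5 (Nat.cast_nonneg _))) hH he (by
      intro s
      have h1 := mul_le_mul_of_nonneg_left (hpal s) (by positivity : (0 : ℝ) ≤ 2 * m + 1)
      push_cast at h1
      linarith)
  obtain ⟨wv, L6⟩ := H8 G H Q Gc d D k ((w0 + n * wc) + 3 * wq) w0 wq wc W1 g gh cc UH c0 EH tu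
    lab e τ ι e1 sy tp pal c
    (by omega) (hSit.mono y8 a8 le_rfl) hH he he1 hee L5 hι1 hι2 hτq hι3 w_7 w_8 w_9 w_10 w_12
  obtain ⟨Mx, O, L8⟩ := H6 G H Q Gc d D k ((w0 + n * wc) + 3 * wq) W1 cc UH c0 EH tu lab e τ ι ρ
    e1 sy tp pal c wv Nd (by omega) (hSit.mono y6 a6 le_rfl) L1' hH he L5
    (uPar_mono L6 (min_le_left _ _)) L4 hmw_le hτρ hρ'
  obtain ⟨Kk, L7⟩ := H9 G H Q Gc d D ((w0 + n * wc) + 3 * wq) W1 g gh cc UH lab τ ι sy Nd Mx
    (by omega) (hSit.mono y9 a9 le_rfl) L4 (fun x v v' h => (L8.le x v v' h).1) hι1 hτt'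
    (fun i => by rw [hι3]; exact w_6) hsy'
  obtain ⟨M1, O1, L9⟩ := H7 G H Q Gc d D k ((w0 + n * wc) + 3 * wq) W1 ν cc UH c0 EH tu lab e τ ι
    ρ e1 sy tp c wv Nd Mx O Kk (by omega) (hSit.mono y7 a7 le_rfl) L2 L3 hH he1
    (uPar_mono L6 (min_le_right _ _)) L4 L8 L7 hmw_le hρ'
    (w_13.trans (mul_le_mul_of_nonneg_right hδe1 (Nat.cast_nonneg _)))
  obtain ⟨t, L10, L11, L12⟩ := hASM gd x (min δ3 δ4) G H Gc d D k ((w0 + n * wc) + 3 * wq) W1 ν
    UH c0 EH tu lab e τ ι ρ e1 sy tp pal c wv Nd Mx O Kk M1 O1 (by omega) hBG.deg hCls w_11 hH he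
    he1 hee (fun u _ x hx => htp u x hx) hτρ hι1 L5 L6 L4 L8 L7 L9
  -- the classes of the colours
  obtain ⟨cs, hcs⟩ : ∃ cs : Fin k → Option (Fin n), ∀ x, cs (e x) = ι x.2.2 := by
    refine ⟨fun b => if h : ∃ x, e x = b then ι h.choose.2.2 else none, fun x => ?_⟩
    have h : ∃ x', e x' = e x := ⟨x, rfl⟩
    beta_reduce
    rw [dif_pos h, he h.choose_spec]
  refine ⟨c, t, univ.image e ∪ univ.image e1, univ.image e1, cs, L10, L5.cU, L11, ?_, L5c⟩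
  constructor
  · rw [card_union_of_disjoint, card_image_of_injective _ he, card_image_of_injective _ he1,
      card_univ, card_univ, hcardI, Fintype.card_fin, w_11]
    rw [disjoint_left]
    intro b hb hb'
    rw [mem_image] at hb hb'
    obtain ⟨x, -, hx⟩ := hb
    obtain ⟨y, -, hy⟩ := hb'
    exact hee x y (hx.trans hy.symm)
  · exact subset_union_right
  · rw [card_image_of_injective _ he1, card_univ, Fintype.card_fin]
    exact w_13.trans (mul_le_mul_of_nonneg_right hδe2 (Nat.cast_nonneg _))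
  · intro v hv
    obtain ⟨y, hy, -⟩ := L5.cP v hv
    rw [hy]
    exact mem_union_left _ (mem_image_of_mem _ (mem_univ _))
  · intro v v' h1 h2
    rcases L12 v v' h1 h2 with ⟨x, hx, -⟩ | ⟨y, hy, -⟩
    · rw [hx]
      exact mem_union_left _ (mem_image_of_mem _ (mem_univ _))
    · rw [hy]
      exact mem_union_right _ (mem_image_of_mem _ (mem_univ _))
  · intro i
    have h1 : ((univ.filter (fun x : Ix m ((w0 + n * wc) + 3 * wq) =>
        ι x.2.2 = some i)).image e).card ≤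
        ((univ.image e ∪ univ.image e1).filter (fun b => b ∉ univ.image e1 ∧
          cs b = some i)).card := by
      refine card_le_card ?_
      intro b hb
      rw [mem_image] at hb
      obtain ⟨x, hx, hx2⟩ := hb
      rw [mem_filter] at hx
      rw [mem_filter]
      refine ⟨mem_union_left _ (mem_image.mpr ⟨x, mem_univ _, hx2⟩), ?_, ?_⟩
      · intro hb'
        rw [mem_image] at hb'
        obtain ⟨y, -, hy⟩ := hb'
        exact hee x y (hx2.trans hy.symm)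
      · rw [← hx2, hcs]
        exact hx.2
    rw [card_image_of_injective _ he, card_class, hι3] at h1
    have h2 : (((2 * m + 1) * (m * wc) : ℕ) : ℝ) ≤
        (((univ.image e ∪ univ.image e1).filter (fun b => b ∉ univ.image e1 ∧
          cs b = some i)).card : ℝ) := by exact_mod_cast h1
    push_cast at h2
    have h3 : (1 - η) * (D : ℝ) ≤ (1 + 1 / (2 * (2 * m + 1))) * D := by
      apply mul_le_mul_of_nonneg_right _ (Nat.cast_nonneg _)
      have : 0 ≤ 1 / (2 * (2 * (m : ℝ) + 1)) := by positivity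
      linarith only [this, hη]
    have h4 : (2 * (m : ℝ) + 1) * m * wc = (2 * (m : ℝ) + 1) * (m * wc) := by ring
    linarith only [h2, h3, w_10, h4]
  · intro v v' h1 h2 h3
    rcases L12 v v' h1 h2 with ⟨x, hx, hx2⟩ | ⟨y, hy, -⟩
    · rcases hx2 with h4 | ⟨i, hi, h4⟩
      · exact Or.inl h4
      · right
        exact ⟨i, by rw [hx, hcs]; exact hi, h4⟩
    · exact absurd (by rw [hy]; exact mem_image_of_mem _ (mem_univ _)) h3
  · intro v b hb
    rw [mem_image] at hb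
    obtain ⟨y, -, hy⟩ := hb
    have h1 : (nb Q v).filter (fun x => ∃ y, G.Adj x y ∧ ¬ EH.Adj x y ∧ ¬ H.Adj x y ∧ t x y = b) ⊆
        nb Q v ∩ univ.filter (fun x => sp (lab x) = (sy y).1 ∨ sp (lab x) = (sy y).2) := by
      intro x hx
      rw [mem_filter] at hx
      obtain ⟨hx1, z, z1, z2, z3, z4⟩ := hx
      rw [mem_inter, mem_filter]
      refine ⟨hx1, mem_univ _, ?_⟩
      rcases L12 x z z1 z2 with ⟨x', hx', -⟩ | ⟨y', hy', hy2⟩
      · exact absurd (hx'.symm.trans (z4.trans hy.symm)) (hee x' y)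
      · have h5 : y' = y := he1 (hy'.symm.trans (z4.trans hy.symm))
        subst h5
        rcases hy2 with h6 | h6
        · exact absurd h6 z3
        · exact h6.1
    have h2 : (((nb Q v).filter (fun x => ∃ y, G.Adj x y ∧ ¬ EH.Adj x y ∧ ¬ H.Adj x y ∧
        t x y = b)).card : ℝ) ≤
        ((nb Q v ∩ univ.filter (fun x => sp (lab x) = (sy y).1 ∨
          sp (lab x) = (sy y).2)).card : ℝ) := by exact_mod_cast card_le_card h1
    refine h2.trans ((spl_le labQ v (hQ v) _ _).trans ?_)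
    have hd0 : (0 : ℝ) ≤ d := Nat.cast_nonneg _
    have h3 : 4 * (d : ℝ) / (K1 + 1) ≤ η / 2 * d := by
      rw [div_le_iff₀ (by positivity)]
      rw [div_le_iff₀ hη] at hK1η
      nlinarith only [hK1η, hd0]
    have h4 : s * d ≤ η / 2 * d := mul_le_mul_of_nonneg_right a2 hd0
    linarith only [h3, h4]

end Pool.Agent.Work.MP_db9399_ot.helper67
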